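import Pool.Agent.L5helper98.CQ.Stmts

/-!
Project CQ, task Comb.
-/

set_option autoImplicit false

namespace Pool.Agent.L5helper11.CQ

open Finset
open scoped Classical
open Pool.Agent.L5helper98.CQ

/-- functions on a product set with one good coordinate -/
theorem good_tuples {X : Type} [Fintype X] (r : ℕ) (hr : 1 ≤ r) (G : Finset X)
    (T : X → Fin r → Finset X) (t : ℕ) (hT : ∀ u ∈ G, ∀ i, t ≤ (T u i).card)
    (𝒯 : Finset (Fin r → X))
    (h : ∀ u ∈ G, ∀ f : Fin r → X, f ⟨0, hr⟩ = u → (∀ i, i ≠ ⟨0, hr⟩ → f i ∈ T u i) → f ∈ 𝒯) :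
    G.card * t ^ (r - 1) ≤ 𝒯.card := by
  have h1 : ∀ u ∈ G, t ^ (r - 1) ≤ (𝒯.filter (fun f => f ⟨0, hr⟩ = u)).card := by
    intro u hu
    have h2 : (Fintype.piFinset (fun i => if i = (⟨0, hr⟩ : Fin r) then ({u} : Finset X)
        else T u i)) ⊆ 𝒯.filter (fun f => f ⟨0, hr⟩ = u) := by
      intro f hf
      rw [Fintype.mem_piFinset] at hf
      have h0 : f ⟨0, hr⟩ = u := by
        have := hf ⟨0, hr⟩
        rw [if_pos rfl, mem_singleton] at this
        exact this
      rw [mem_filter]
      refine ⟨h u hu f h0 fun i hi => ?_, h0⟩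
      have := hf i
      rwa [if_neg hi] at this
    refine le_trans ?_ (card_le_card h2)
    rw [Fintype.card_piFinset, ← mul_prod_erase univ _ (mem_univ (⟨0, hr⟩ : Fin r)), if_pos rfl,
      card_singleton, one_mul]
    calc t ^ (r - 1) = ∏ _i ∈ univ.erase (⟨0, hr⟩ : Fin r), t := by
          rw [prod_const, card_erase_of_mem (mem_univ _), card_univ, Fintype.card_fin]
      _ ≤ _ := by
          refine prod_le_prod' fun i hi => ?_
          rw [if_neg (ne_of_mem_erase hi)]
          exact hT u hu i
  calc G.card * t ^ (r - 1) = ∑ _u ∈ G, t ^ (r - 1) := by rw [sum_const, smul_eq_mul]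
    _ ≤ ∑ u ∈ G, (𝒯.filter (fun f => f ⟨0, hr⟩ = u)).card := sum_le_sum h1
    _ = (𝒯.filter (fun f => f ⟨0, hr⟩ ∈ G)).card := by
        rw [card_eq_sum_card_fiberwise (f := fun f : Fin r → X => f ⟨0, hr⟩) (t := G)]
        · refine sum_congr rfl fun u hu => ?_
          congr 1
          ext f
          simp only [mem_filter]
          constructor
          · rintro ⟨h1, h2⟩
            exact ⟨⟨h1, h2 ▸ hu⟩, h2⟩
          · rintro ⟨⟨h1, _⟩, h2⟩
            exact ⟨h1, h2⟩
        · intro f hf
          exact (mem_filter.1 hf).2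
    _ ≤ 𝒯.card := card_filter_le _ _

/-- the number of tuples with a repetition -/
theorem card_not_injective {X : Type} [Fintype X] (r : ℕ) :
    ((univ.filter (fun f : Fin r → X => ¬ Function.Injective f)).card : ℝ) ≤
      (r : ℝ) ^ 2 * (Fintype.card X : ℝ) ^ (r - 1) := by
  rcases Nat.eq_zero_or_pos r with rfl | hr
  · have : (univ.filter (fun f : Fin 0 → X => ¬ Function.Injective f)) = ∅ := by
      rw [filter_eq_empty_iff]
      intro f _ h
      exact h fun x => x.elim0
    rw [this]
    simp
  -- union over the pairs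
  have h1 : (univ.filter (fun f : Fin r → X => ¬ Function.Injective f)) ⊆
      (univ : Finset (Fin r × Fin r)).biUnion (fun q =>
        if q.1 = q.2 then ∅ else univ.filter (fun f : Fin r → X => f q.1 = f q.2)) := by
    intro f hf
    rw [mem_filter] at hf
    have h2 := hf.2
    unfold Function.Injective at h2
    push Not at h2
    obtain ⟨i, j, hij, hne⟩ := h2
    rw [mem_biUnion]
    refine ⟨(i, j), mem_univ _, ?_⟩
    rw [if_neg hne, mem_filter]
    exact ⟨mem_univ _, hij⟩
  have h3 : ∀ q : Fin r × Fin r, (if q.1 = q.2 then ∅ else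
      univ.filter (fun f : Fin r → X => f q.1 = f q.2)).card ≤ (Fintype.card X) ^ (r - 1) := by
    rintro ⟨i, j⟩
    by_cases hij : i = j
    · rw [if_pos hij, card_empty]
      exact Nat.zero_le _
    · rw [if_neg hij]
      -- forget the coordinate `i`
      have h4 : (univ.filter (fun f : Fin r → X => f i = f j)).card ≤
          Fintype.card ({k : Fin r // k ≠ i} → X) := by
        rw [← card_univ]
        refine card_le_card_of_injOn (fun f k => f k.1) (fun _ _ => mem_coe.2 (mem_univ _)) ?_
        intro f hf g hg h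
        have hf' : f i = f j := (mem_filter.1 (mem_coe.1 hf)).2
        have hg' : g i = g j := (mem_filter.1 (mem_coe.1 hg)).2
        funext k
        by_cases hk : k = i
        · rw [hk, hf', hg']
          exact congrFun h ⟨j, fun h => hij h.symm⟩
        · exact congrFun h ⟨k, hk⟩
      refine h4.trans (le_of_eq ?_)
      rw [Fintype.card_fun]
      congr 1
      rw [Fintype.card_subtype_compl, Fintype.card_subtype_eq, Fintype.card_fin]
  have h5 : (univ.filter (fun f : Fin r → X => ¬ Function.Injective f)).card ≤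
      r ^ 2 * (Fintype.card X) ^ (r - 1) := by
    refine (card_le_card h1).trans (card_biUnion_le.trans ?_)
    calc ∑ q : Fin r × Fin r, (if q.1 = q.2 then ∅ else
        univ.filter (fun f : Fin r → X => f q.1 = f q.2)).card ≤
        ∑ _q : Fin r × Fin r, (Fintype.card X) ^ (r - 1) := sum_le_sum fun q _ => h3 q
      _ = r ^ 2 * (Fintype.card X) ^ (r - 1) := by
        rw [sum_const, card_univ, Fintype.card_prod, Fintype.card_fin, smul_eq_mul, sq]
  exact_mod_cast h5

/-- from tuples to sets -/
theorem card_inj_le {X : Type} [Fintype X] (r : ℕ) (𝒯 : Finset (Fin r → X))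
    (ℱ : Finset (Finset X)) (h : ∀ f ∈ 𝒯, Function.Injective f → univ.image f ∈ ℱ)
    (hℱ : ∀ K ∈ ℱ, K.card = r) :
    𝒯.card ≤ r ^ r * ℱ.card + (univ.filter (fun f : Fin r → X => ¬ Function.Injective f)).card := by
  have h1 : 𝒯 ⊆ (𝒯.filter (fun f => Function.Injective f)) ∪
      univ.filter (fun f : Fin r → X => ¬ Function.Injective f) := by
    intro f hf
    rw [mem_union, mem_filter, mem_filter]
    by_cases hi : Function.Injective f
    · exact Or.inl ⟨hf, hi⟩
    · exact Or.inr ⟨mem_univ _, hi⟩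
  refine (card_le_card h1).trans ((card_union_le _ _).trans (Nat.add_le_add_right ?_ _))
  have h2 : (𝒯.filter (fun f => Function.Injective f)).card ≤
      r ^ r * ((𝒯.filter (fun f => Function.Injective f)).image
        (fun f : Fin r → X => univ.image f)).card := by
    refine card_le_mul_card_image _ _ ?_
    intro K hK
    obtain ⟨f, hf, rfl⟩ := mem_image.1 hK
    have hK' : (univ.image f).card = r := hℱ _ (h f (mem_filter.1 hf).1 (mem_filter.1 hf).2)
    have h3 : (𝒯.filter (fun f => Function.Injective f)).filter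
        (fun g : Fin r → X => univ.image g = univ.image f) ⊆
        Fintype.piFinset (fun _ : Fin r => univ.image f) := by
      intro g hg
      rw [Fintype.mem_piFinset]
      intro i
      rw [← (mem_filter.1 hg).2]
      exact mem_image_of_mem g (mem_univ i)
    refine (card_le_card h3).trans (le_of_eq ?_)
    rw [Fintype.card_piFinset, prod_const, hK', card_univ, Fintype.card_fin]
  refine h2.trans (Nat.mul_le_mul_left _ (card_le_card ?_))
  intro K hK
  obtain ⟨f, hf, rfl⟩ := mem_image.1 hK
  exact h f (mem_filter.1 hf).1 (mem_filter.1 hf).2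

/-- the counting statement for subsets of a finite type -/
theorem core {X V : Type} [Fintype X] (r : ℕ) (hr : 2 ≤ r) (C δ : ℝ) (hC : 0 < C)
    (hδ : 0 < δ) (hδ' : δ ≤ 1) (M : Finset V) (N : V → Finset X)
    (hX : 4 * (r : ℝ) ^ 2 / (δ / 2) ^ (r - 1) ≤ Fintype.card X) (hX1 : 1 ≤ Fintype.card X)
    (h1 : ∀ v ∈ M, δ * Fintype.card X ≤ ((univ \ N v).card : ℝ))
    (h2 : ((∑ v ∈ M, (N v).card : ℕ) : ℝ) ≤ C * Fintype.card X)
    (h3 : ∀ R ⊆ M, R.card = r → ((univ.filter (fun u => ∀ v ∈ R, u ∈ N v)).card : ℝ) ≤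
      1 / (4 * 2 ^ ⌈8 * C ^ 2 / δ⌉₊) * Fintype.card X) :
    (δ / 2) ^ (r - 1) / (4 * (r : ℝ) ^ r) * (Fintype.card X : ℝ) ^ r ≤
      (((powersetCard r univ).filter (fun K : Finset X => ∀ v ∈ M, ¬ K ⊆ N v)).card : ℝ) := by
  set s : ℝ := (Fintype.card X : ℝ) with hs
  have hs0 : 0 < s := by
    rw [hs]
    exact_mod_cast hX1
  have hr1 : 1 ≤ r := by omega
  set δ1 : ℝ := δ / (8 * C) with hδ1
  have hδ10 : 0 < δ1 := by positivity
  set Lg : Finset V := M.filter (fun v => δ1 * s ≤ ((N v).card : ℝ)) with hLg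
  have hLgM : Lg ⊆ M := filter_subset _ _
  set B : ℕ := ⌈8 * C ^ 2 / δ⌉₊ with hB
  -- few large sets
  have hLgB : Lg.card ≤ B := by
    have h4 : (Lg.card : ℝ) * (δ1 * s) ≤ C * s := by
      calc (Lg.card : ℝ) * (δ1 * s) = ∑ _v ∈ Lg, δ1 * s := by rw [sum_const, nsmul_eq_mul]
        _ ≤ ∑ v ∈ Lg, ((N v).card : ℝ) := sum_le_sum fun v hv => (mem_filter.1 hv).2
        _ ≤ ∑ v ∈ M, ((N v).card : ℝ) :=
            sum_le_sum_of_subset_of_nonneg hLgM fun _ _ _ => Nat.cast_nonneg _
        _ = ((∑ v ∈ M, (N v).card : ℕ) : ℝ) := by push_cast; rfl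
        _ ≤ C * s := h2
    have h5 : (Lg.card : ℝ) ≤ 8 * C ^ 2 / δ := by
      rw [le_div_iff₀ hδ]
      have h6 : (Lg.card : ℝ) * δ1 ≤ C := by
        by_contra hcon
        push Not at hcon
        nlinarith
      rw [hδ1, mul_div_assoc', div_le_iff₀ (by positivity)] at h6
      nlinarith
    exact_mod_cast h5.trans (Nat.le_ceil _)
  -- the bad elements
  set bad1 : Finset X := univ.filter (fun u => r ≤ (Lg.filter (fun v => u ∈ N v)).card) with hbad1
  set bad2 : Finset X := univ.filter (fun u => 4 * C < ((M.filter (fun v => u ∈ N v)).card : ℝ))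
    with hbad2
  have hb1 : (bad1.card : ℝ) ≤ s / 4 := by
    have h4 : bad1 ⊆ (powersetCard r Lg).biUnion
        (fun R => univ.filter (fun u => ∀ v ∈ R, u ∈ N v)) := by
      intro u hu
      obtain ⟨R, hR, hRc⟩ := exists_subset_card_eq (mem_filter.1 hu).2
      rw [mem_biUnion]
      refine ⟨R, mem_powersetCard.2 ⟨hR.trans (filter_subset _ _), hRc⟩, mem_filter.2
        ⟨mem_univ _, fun v hv => (mem_filter.1 (hR hv)).2⟩⟩
    have h5 : (bad1.card : ℝ) ≤ ∑ R ∈ powersetCard r Lg,
        ((univ.filter (fun u => ∀ v ∈ R, u ∈ N v)).card : ℝ) := by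
      exact_mod_cast (card_le_card h4).trans card_biUnion_le
    refine h5.trans ?_
    calc ∑ R ∈ powersetCard r Lg, ((univ.filter (fun u => ∀ v ∈ R, u ∈ N v)).card : ℝ) ≤
        ∑ _R ∈ powersetCard r Lg, 1 / (4 * 2 ^ B) * s := by
          refine sum_le_sum fun R hR => ?_
          rw [mem_powersetCard] at hR
          exact h3 R (hR.1.trans hLgM) hR.2
      _ = ((powersetCard r Lg).card : ℝ) * (1 / (4 * 2 ^ B) * s) := by
          rw [sum_const, nsmul_eq_mul]
      _ ≤ (2 : ℝ) ^ B * (1 / (4 * 2 ^ B) * s) := by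
          refine mul_le_mul_of_nonneg_right ?_ (by positivity)
          rw [card_powersetCard]
          have h6 : Lg.card.choose r ≤ 2 ^ B :=
            (Nat.choose_le_two_pow _ _).trans (Nat.pow_le_pow_right (by norm_num) hLgB)
          exact_mod_cast h6
      _ = s / 4 := by
          field_simp
  have hb2 : (bad2.card : ℝ) ≤ s / 4 := by
    have h4 : ∑ u : X, (M.filter (fun v => u ∈ N v)).card = ∑ v ∈ M, (N v).card := by
      have h5 : ∀ u : X, (M.filter (fun v => u ∈ N v)).card = ∑ v ∈ M, if u ∈ N v then 1 else 0 :=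
        fun u => by rw [card_filter]
      simp only [h5]
      rw [sum_comm]
      refine sum_congr rfl fun v _ => ?_
      rw [← card_filter]
      congr 1
      ext u
      simp
    have h5 : (bad2.card : ℝ) * (4 * C) ≤ C * s := by
      calc (bad2.card : ℝ) * (4 * C) = ∑ _u ∈ bad2, 4 * C := by rw [sum_const, nsmul_eq_mul]
        _ ≤ ∑ u ∈ bad2, ((M.filter (fun v => u ∈ N v)).card : ℝ) :=
            sum_le_sum fun u hu => (mem_filter.1 hu).2.le
        _ ≤ ∑ u : X, ((M.filter (fun v => u ∈ N v)).card : ℝ) :=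
            sum_le_sum_of_subset_of_nonneg (subset_univ _) fun _ _ _ => Nat.cast_nonneg _
        _ = ((∑ v ∈ M, (N v).card : ℕ) : ℝ) := by rw [← h4]; push_cast; rfl
        _ ≤ C * s := h2
    rw [le_div_iff₀ (by norm_num)]
    have h6 : C * ((bad2.card : ℝ) * 4) ≤ C * s := by linarith
    exact le_of_mul_le_mul_left h6 hC
  set G : Finset X := univ \ (bad1 ∪ bad2) with hG
  have hGc : s / 2 ≤ (G.card : ℝ) := by
    have h4 : (univ : Finset X).card ≤ G.card + (bad1 ∪ bad2).card := by
      have := card_sdiff_add_card (univ : Finset X) (bad1 ∪ bad2)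
      rw [hG, this]
      exact card_le_card subset_union_left
    have h5 : s ≤ (G.card : ℝ) + ((bad1.card : ℝ) + bad2.card) := by
      rw [hs, ← card_univ]
      exact_mod_cast h4.trans (Nat.add_le_add_left (card_union_le _ _) _)
    linarith
  -- the sets for the other coordinates
  set sm : X → Finset X := fun u => ((M \ Lg).filter (fun v => u ∈ N v)).biUnion N with hsm
  have hsmc : ∀ u ∈ G, ((sm u).card : ℝ) ≤ δ * s / 2 := by
    intro u hu
    have hu2 : ((M.filter (fun v => u ∈ N v)).card : ℝ) ≤ 4 * C := by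
      by_contra hcon
      push Not at hcon
      have h4 : u ∈ bad2 := mem_filter.2 ⟨mem_univ _, hcon⟩
      rw [hG, mem_sdiff] at hu
      exact hu.2 (mem_union_right _ h4)
    have h4 : ((sm u).card : ℝ) ≤ ∑ v ∈ (M \ Lg).filter (fun v => u ∈ N v), ((N v).card : ℝ) := by
      exact_mod_cast card_biUnion_le
    refine h4.trans ?_
    calc ∑ v ∈ (M \ Lg).filter (fun v => u ∈ N v), ((N v).card : ℝ) ≤
        ∑ _v ∈ (M \ Lg).filter (fun v => u ∈ N v), δ1 * s := by
          refine sum_le_sum fun v hv => ?_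
          have hv1 := (mem_filter.1 hv).1
          rw [mem_sdiff] at hv1
          by_contra hcon
          push Not at hcon
          exact hv1.2 (mem_filter.2 ⟨hv1.1, hcon.le⟩)
      _ = (((M \ Lg).filter (fun v => u ∈ N v)).card : ℝ) * (δ1 * s) := by
          rw [sum_const, nsmul_eq_mul]
      _ ≤ (4 * C) * (δ1 * s) := by
          refine mul_le_mul_of_nonneg_right (le_trans ?_ hu2) (by positivity)
          exact_mod_cast card_le_card (filter_subset_filter _ sdiff_subset)
      _ = δ * s / 2 := by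
          rw [hδ1]
          field_simp
          ring
  set l : X → List V := fun u => (Lg.filter (fun v => u ∈ N v)).toList with hl
  have hll : ∀ u ∈ G, (l u).length ≤ r - 1 := by
    intro u hu
    rw [hl]
    simp only [length_toList]
    by_contra hcon
    push Not at hcon
    have h4 : u ∈ bad1 := mem_filter.2 ⟨mem_univ _, by omega⟩
    rw [hG, mem_sdiff] at hu
    exact hu.2 (mem_union_left _ h4)
  set T : X → Fin r → Finset X := fun u i =>
    (match (l u)[(i : ℕ) - 1]? with
      | none => univ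
      | some v => univ \ N v) \ sm u with hT
  have hTc : ∀ u ∈ G, ∀ i, ⌈δ * s / 2⌉₊ ≤ (T u i).card := by
    intro u hu i
    rw [Nat.ceil_le]
    have h4 : ∀ A : Finset X, δ * s ≤ (A.card : ℝ) → δ * s / 2 ≤ ((A \ sm u).card : ℝ) := by
      intro A hA
      have h5 : (A.card : ℝ) ≤ ((A \ sm u).card : ℝ) + (sm u).card := by
        have := card_sdiff_add_card A (sm u)
        have h6 : A.card ≤ (A \ sm u).card + (sm u).card := by
          rw [this]
          exact card_le_card subset_union_left
        exact_mod_cast h6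
      have := hsmc u hu
      linarith
    change δ * s / 2 ≤ (((match (l u)[(i : ℕ) - 1]? with
      | none => univ
      | some v => univ \ N v) \ sm u).card : ℝ)
    apply h4
    rcases hc : (l u)[(i : ℕ) - 1]? with _ | v
    · simp only
      rw [card_univ, ← hs]
      nlinarith
    · simp only
      apply h1
      have h5 : v ∈ l u := List.mem_of_getElem? hc
      rw [hl] at h5
      simp only [mem_toList] at h5
      exact hLgM (mem_filter.1 h5).1
  set 𝒯 : Finset (Fin r → X) := univ.filter (fun f => ∀ v ∈ M, ∃ i, f i ∉ N v) with h𝒯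
  have key := good_tuples r hr1 G T ⌈δ * s / 2⌉₊ hTc 𝒯 (by
    intro u hu f hf0 hf
    rw [h𝒯, mem_filter]
    refine ⟨mem_univ _, fun v hv => ?_⟩
    by_cases huv : u ∈ N v
    · by_cases hvL : v ∈ Lg
      · have h4 : v ∈ l u := by
          rw [hl]
          simp only [mem_toList]
          exact mem_filter.2 ⟨hvL, huv⟩
        obtain ⟨k, hk, hkv⟩ := List.mem_iff_getElem.1 h4
        have hkr : k + 1 < r := by
          have := hll u hu
          omega
        refine ⟨⟨k + 1, hkr⟩, ?_⟩
        have h5 := hf ⟨k + 1, hkr⟩ (by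
          intro h
          have := congrArg Fin.val h
          simp at this)
        have h6 : (l u)[((⟨k + 1, hkr⟩ : Fin r) : ℕ) - 1]? = some v := by
          simp only [Nat.add_sub_cancel]
          rw [List.getElem?_eq_getElem hk, hkv]
        change f ⟨k + 1, hkr⟩ ∈ (match (l u)[((⟨k + 1, hkr⟩ : Fin r) : ℕ) - 1]? with
          | none => univ
          | some v => univ \ N v) \ sm u at h5
        rw [h6] at h5
        simp only [mem_sdiff, mem_univ, true_and] at h5
        exact h5.1
      · refine ⟨⟨1, by omega⟩, ?_⟩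
        have h5 := hf ⟨1, by omega⟩ (by
          intro h
          have := congrArg Fin.val h
          simp at this)
        intro h6
        apply (mem_sdiff.1 h5).2
        rw [hsm]
        simp only [mem_biUnion]
        exact ⟨v, mem_filter.2 ⟨mem_sdiff.2 ⟨hv, hvL⟩, huv⟩, h6⟩
    · exact ⟨⟨0, hr1⟩, by rw [hf0]; exact huv⟩)
  set ℱ : Finset (Finset X) := (powersetCard r univ).filter (fun K => ∀ v ∈ M, ¬ K ⊆ N v) with hℱ
  have key2 := card_inj_le r 𝒯 ℱ (by
    intro f hf hinj
    rw [hℱ, mem_filter, mem_powersetCard]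
    refine ⟨⟨subset_univ _, by rw [card_image_of_injective _ hinj, card_univ, Fintype.card_fin]⟩,
      fun v hv hsub => ?_⟩
    obtain ⟨i, hi⟩ := (mem_filter.1 hf).2 v hv
    exact hi (hsub (mem_image_of_mem f (mem_univ i))))
    (fun K hK => (mem_powersetCard.1 (mem_filter.1 hK).1).2)
  have key3 := card_not_injective (X := X) r
  -- numbers
  have hk1 : (s / 2) * (δ * s / 2) ^ (r - 1) ≤ (𝒯.card : ℝ) := by
    have h4 : ((G.card * ⌈δ * s / 2⌉₊ ^ (r - 1) : ℕ) : ℝ) ≤ (𝒯.card : ℝ) := by exact_mod_cast key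
    refine le_trans ?_ h4
    push_cast
    refine mul_le_mul hGc (pow_le_pow_left₀ (by positivity) (Nat.le_ceil _) _) (by positivity)
      (Nat.cast_nonneg _)
  have hk2 : (𝒯.card : ℝ) ≤ (r : ℝ) ^ r * ℱ.card + (r : ℝ) ^ 2 * s ^ (r - 1) := by
    have h4 : (𝒯.card : ℝ) ≤ ((r ^ r * ℱ.card +
        (univ.filter (fun f : Fin r → X => ¬ Function.Injective f)).card : ℕ) : ℝ) := by
      exact_mod_cast key2
    refine h4.trans ?_
    push_cast
    linarith
  have hpow : (δ * s / 2) ^ (r - 1) = (δ / 2) ^ (r - 1) * s ^ (r - 1) := by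
    rw [← mul_pow]
    congr 1
    ring
  have hsr : s ^ r = s * s ^ (r - 1) := by
    rw [← pow_succ']
    congr 1
    omega
  have hδr : 0 < (δ / 2) ^ (r - 1) := by positivity
  have hX' : (r : ℝ) ^ 2 ≤ (1 / 4) * (δ / 2) ^ (r - 1) * s := by
    rw [div_le_iff₀ hδr] at hX
    linarith
  have hsr0 : 0 < s ^ (r - 1) := by positivity
  have hrr : 0 < (r : ℝ) ^ r := by positivity
  rw [div_mul_eq_mul_div, div_le_iff₀ (by positivity)]
  have h9 : (r : ℝ) ^ 2 * s ^ (r - 1) ≤ (1 / 4) * (δ / 2) ^ (r - 1) * s * s ^ (r - 1) :=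
    mul_le_mul_of_nonneg_right hX' hsr0.le
  rw [hpow] at hk1
  rw [hsr]
  nlinarith

theorem taskComb : TaskComb := by
  intro r C δ hr hC hδ hδ1
  refine ⟨(δ / 2) ^ (r - 1) / (4 * (r : ℝ) ^ r), 1 / (4 * 2 ^ ⌈8 * C ^ 2 / δ⌉₊),
    ⌈4 * (r : ℝ) ^ 2 / (δ / 2) ^ (r - 1)⌉₊ + 1, ?_, by positivity, ?_⟩
  · have hr0 : 0 < (r : ℝ) := by
      have : 0 < r := by omega
      exact_mod_cast this
    positivity
  intro n S M N hs hN h1 h2 h3
  have hSX : Fintype.card {x // x ∈ S} = S.card := Fintype.card_coe S
  -- restrict to `S`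
  have hc : ∀ v ∈ M, (univ.filter (fun u : {x // x ∈ S} => u.1 ∈ N v)).card = (N v).card := by
    intro v hv
    rw [← card_map (Function.Embedding.subtype (fun x => x ∈ S))]
    congr 1
    ext x
    simp only [mem_map, mem_filter, mem_univ, true_and, Function.Embedding.coe_subtype,
      Subtype.exists, exists_and_left, exists_prop, exists_eq_right_right]
    constructor
    · rintro ⟨h, _⟩
      exact h
    · intro h
      exact ⟨h, hN v hv h⟩
  have key := core (X := {x // x ∈ S}) r hr C δ hC hδ hδ1 M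
    (fun v => univ.filter (fun u => u.1 ∈ N v)) (by
      rw [hSX]
      refine (Nat.le_ceil _).trans ?_
      exact_mod_cast (Nat.le_succ _).trans hs) (by rw [hSX]; omega)
    (by
      intro v hv
      rw [hSX]
      refine (h1 v hv).trans (le_of_eq ?_)
      congr 1
      rw [← card_map (Function.Embedding.subtype (fun x => x ∈ S))]
      congr 1
      ext x
      simp only [mem_map, mem_sdiff, mem_filter, mem_univ, true_and,
        Function.Embedding.coe_subtype, Subtype.exists, exists_and_left, exists_prop,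
        exists_eq_right_right]
      tauto)
    (by
      rw [hSX, sum_congr rfl hc]
      exact h2)
    (by
      intro R hR hRr
      rw [hSX]
      refine le_trans (le_of_eq ?_) (h3 R hR hRr)
      congr 1
      rw [← card_map (Function.Embedding.subtype (fun x => x ∈ S))]
      congr 1
      ext x
      simp only [mem_map, mem_filter, mem_univ, true_and,
        Function.Embedding.coe_subtype, Subtype.exists, exists_and_left, exists_prop,
        exists_eq_right_right]
      tauto)
  rw [hSX] at key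
  refine key.trans ?_
  have h4 : ((powersetCard r (univ : Finset {x // x ∈ S})).filter
      (fun K => ∀ v ∈ M, ¬ K ⊆ univ.filter (fun u => u.1 ∈ N v))).card ≤
      ((powersetCard r S).filter (fun K => ∀ v ∈ M, ¬ K ⊆ N v)).card := by
    refine card_le_card_of_injOn
      (fun K => K.map (Function.Embedding.subtype (fun x => x ∈ S))) ?_ ?_
    · intro K hK
      rw [mem_coe, mem_filter, mem_powersetCard] at hK
      rw [mem_coe, mem_filter, mem_powersetCard]
      refine ⟨⟨?_, by rw [card_map]; exact hK.1.2⟩, fun v hv hsub => hK.2 v hv ?_⟩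
      · intro x hx
        obtain ⟨y, _, rfl⟩ := mem_map.1 hx
        exact y.2
      · intro y hy
        rw [mem_filter]
        exact ⟨mem_univ _, hsub (mem_map_of_mem _ hy)⟩
    · intro K _ K' _ h
      exact map_injective _ h
  refine Nat.cast_le.2 ?_
  convert h4

end Pool.Agent.L5helper11.CQ
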